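import Pool.Agent.W491.FS.Stm

set_option autoImplicit false

namespace Pool.Agent.W345.FS.Jlem

/-- the weights -/
noncomputable def tau (J i : ℕ) : ℂ := (-1) ^ i / (J * ((J - 1).choose i : ℂ))

theorem tau_zero {J : ℕ} (hJ : 0 < J) : (J : ℂ) * tau J 0 = 1 := by
  have : (J : ℂ) ≠ 0 := by exact_mod_cast hJ.ne'
  unfold tau
  simp [this]

theorem tau_rec {J i : ℕ} (hi : i + 1 ≤ J - 1) :
    ((i + 1 : ℕ) : ℂ) * tau J i + ((J : ℂ) - ((i + 1 : ℕ) : ℂ)) * tau J (i + 1) = 0 := by
  have hJ : (J : ℂ) ≠ 0 := by
    have : 0 < J := by omega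
    exact_mod_cast this.ne'
  have h1 : ((J - 1).choose i : ℂ) ≠ 0 := by
    exact_mod_cast (Nat.choose_pos (by omega : i ≤ J - 1)).ne'
  have h2 : ((J - 1).choose (i + 1) : ℂ) ≠ 0 := by
    exact_mod_cast (Nat.choose_pos (by omega : i + 1 ≤ J - 1)).ne'
  have h3 : ((J - 1).choose (i + 1) : ℂ) * ((i + 1 : ℕ) : ℂ) =
      ((J - 1).choose i : ℂ) * ((J : ℂ) - ((i + 1 : ℕ) : ℂ)) := by
    have h := Nat.choose_succ_right_eq (J - 1) i
    have h4 : (J : ℂ) - ((i + 1 : ℕ) : ℂ) = ((J - 1 - i : ℕ) : ℂ) := by
      rw [show J - 1 - i = J - (i + 1) by omega, Nat.cast_sub (by omega : i + 1 ≤ J)]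
    rw [h4]
    exact_mod_cast h
  unfold tau
  rw [pow_succ]
  field_simp
  linear_combination (-1) ^ i * h3

theorem main' (T : Type) [Fintype T] [DecidableEq T] (a b : T → ℂ)
    (hab : ∀ l l', l ≠ l' → a l * b l' ≠ a l' * b l) (S : Finset T)
    (hS : 2 * S.card = Fintype.card T) (hS0 : 0 < S.card) :
    ∃ u v : Finset T → ℂ, ∀ S' : Finset T,
      ∑ l ∈ S', (a l * u (S'.erase l) + b l * v (S'.erase l)) = if S' = S then 1 else 0 := by
  obtain ⟨l0, hl0⟩ : ∃ l0, l0 ∉ S := by
    by_contra h
    push Not at h
    have : S = Finset.univ := Finset.eq_univ_iff_forall.2 h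
    rw [this, Finset.card_univ] at hS hS0
    omega
  set J := S.card with hJ
  set c : T → ℂ := fun l => b l0 * a l - a l0 * b l with hc
  have hc0 : c l0 = 0 := by simp only [hc]; ring
  have hcn : ∀ l, l ≠ l0 → c l ≠ 0 := by
    intro l hl h
    apply hab l l0 hl
    simp only [hc] at h
    linear_combination h
  set q : Finset T → ℂ := fun R => if l0 ∉ R ∧ R.card = J - 1 then
    (∏ l ∈ S, c l)⁻¹ * (∏ l ∈ R, c l) * tau J (R \ S).card else 0 with hq
  refine ⟨fun R => b l0 * q R, fun R => -a l0 * q R, fun S' => ?_⟩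
  have e1 : ∀ l ∈ S', (a l * (b l0 * q (S'.erase l)) + b l * (-a l0 * q (S'.erase l))) =
      c l * q (S'.erase l) := by
    intro l _
    simp only [hc]
    ring
  rw [Finset.sum_congr rfl e1]
  by_cases h0 : l0 ∈ S'
  · have hne : S' ≠ S := fun h => hl0 (h ▸ h0)
    rw [if_neg hne]
    refine Finset.sum_eq_zero fun l _ => ?_
    by_cases hl : l = l0
    · rw [hl, hc0, zero_mul]
    · have : l0 ∈ S'.erase l := Finset.mem_erase.2 ⟨Ne.symm hl, h0⟩
      simp only [hq]
      rw [if_neg (fun h => h.1 this), mul_zero]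
  · by_cases hcard : S'.card = J
    · have e2 : ∀ l ∈ S', c l * q (S'.erase l) =
          (∏ l ∈ S, c l)⁻¹ * (∏ l ∈ S', c l) * tau J ((S'.erase l) \ S).card := by
        intro l hl
        simp only [hq]
        rw [if_pos ⟨fun h => h0 (Finset.mem_of_mem_erase h), by
          rw [Finset.card_erase_of_mem hl, hcard]⟩, ← Finset.mul_prod_erase S' c hl]
        ring
      rw [Finset.sum_congr rfl e2, ← Finset.mul_sum]
      have hi : (S' \ S).card ≤ J - 1 := by
        have h1 : S' \ S ⊆ (Finset.univ \ S).erase l0 := by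
          intro l hl
          rw [Finset.mem_sdiff] at hl
          rw [Finset.mem_erase, Finset.mem_sdiff]
          exact ⟨fun h => h0 (h ▸ hl.1), Finset.mem_univ _, hl.2⟩
        have h2 := Finset.card_le_card h1
        rw [Finset.card_erase_of_mem (by simp [hl0]), ← Finset.compl_eq_univ_sdiff,
          Finset.card_compl] at h2
        omega
      have hsplit : ∑ l ∈ S', tau J ((S'.erase l) \ S).card =
          ((S' \ S).card : ℂ) * tau J ((S' \ S).card - 1) +
          ((J : ℂ) - ((S' \ S).card : ℂ)) * tau J (S' \ S).card := by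
        rw [← Finset.sum_sdiff (Finset.inter_subset_left : S' ∩ S ⊆ S')]
        congr 1
        · rw [Finset.sdiff_inter_self_left, Finset.sum_congr rfl (g := fun _ =>
            tau J ((S' \ S).card - 1)), Finset.sum_const, nsmul_eq_mul]
          intro l hl
          have : S'.erase l \ S = (S' \ S).erase l := by
            ext x; simp only [Finset.mem_sdiff, Finset.mem_erase]; tauto
          rw [this, Finset.card_erase_of_mem hl]
        · rw [Finset.sum_congr rfl (g := fun _ => tau J (S' \ S).card), Finset.sum_const,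
            nsmul_eq_mul]
          · congr 1
            have := Finset.card_sdiff_add_card_inter S' S
            rw [hcard] at this
            have h2 : ((S' \ S).card : ℂ) + ((S' ∩ S).card : ℂ) = J := by exact_mod_cast this
            linear_combination h2
          · intro l hl
            have : S'.erase l \ S = S' \ S := by
              ext x
              simp only [Finset.mem_sdiff, Finset.mem_erase]
              constructor
              · rintro ⟨⟨_, h1⟩, h2⟩; exact ⟨h1, h2⟩
              · rintro ⟨h1, h2⟩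
                refine ⟨⟨?_, h1⟩, h2⟩
                rintro rfl
                exact h2 (Finset.mem_inter.1 hl).2
            rw [this]
      rw [hsplit]
      by_cases hz : (S' \ S).card = 0
      · have hsub : S' ⊆ S := by
          rw [Finset.card_eq_zero, Finset.sdiff_eq_empty_iff_subset] at hz
          exact hz
        have heq : S' = S := Finset.eq_of_subset_of_card_le hsub (by rw [hcard])
        rw [if_pos heq, hz, heq]
        have hp : ∏ l ∈ S, c l ≠ 0 := Finset.prod_ne_zero_iff.2 fun l hl =>
          hcn l (fun h => hl0 (h ▸ hl))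
        rw [inv_mul_cancel₀ hp]
        have := tau_zero hS0
        simp only [Nat.cast_zero, zero_mul, zero_add, sub_zero, one_mul]
        exact this
      · have hne : S' ≠ S := by
          rintro rfl
          simp at hz
        rw [if_neg hne]
        obtain ⟨i, hi'⟩ := Nat.exists_eq_succ_of_ne_zero hz
        rw [Nat.succ_eq_add_one] at hi'
        rw [hi'] at hi ⊢
        rw [Nat.add_sub_cancel, tau_rec hi, mul_zero]
    · have hne : S' ≠ S := by
        rintro rfl
        exact hcard rfl
      rw [if_neg hne]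
      refine Finset.sum_eq_zero fun l hl => ?_
      simp only [hq]
      rw [if_neg, mul_zero]
      rintro ⟨_, h⟩
      rw [Finset.card_erase_of_mem hl] at h
      have := Finset.card_pos.2 ⟨l, hl⟩
      omega

theorem main : Pool.Agent.W491.FS.S_JLEM := by
  intro T _ _ a b hab S hS hS0
  exact main' T a b hab S hS hS0

end Pool.Agent.W345.FS.Jlem
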